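import Mathlib
import Pool.Agent.H995R3.Kurepa.Def

/-!
# A Kurepa family gives a regular Kurepa tree on `ω₁`

The nodes are the pairs `(α, s)`, where `s` is the trace on `α` of a finite modification of a member
of the family.
-/

set_option autoImplicit false

open Set Cardinal

namespace Pool.Agent.Zk92.KM

open Pool.Agent.H995R3.Kurepa

variable {W N : Type} [LinearOrder W]

/-- `X` is a Kurepa family: the sets `X i` are different, and for every `δ` the sets `X i` have
only countably many traces on `{ξ : ξ < δ}`. -/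
def Fam (X : N → W → Prop) : Prop :=
  (∀ i j, i ≠ j → ∃ ξ, ¬ (X i ξ ↔ X j ξ)) ∧
    ∀ δ, ∃ e : ℕ → N, ∀ i, ∃ n, ∃ j, e n = j ∧ ∀ ξ, ξ < δ → (X i ξ ↔ X j ξ)

/-- the trace on `α` of the symmetric difference of `X i` and `F` -/
def tr (X : N → W → Prop) (i : N) (F : Finset W) (α : W) : Set W :=
  {ξ | ξ < α ∧ ¬ (X i ξ ↔ ξ ∈ F)}

theorem tr_inter (X : N → W → Prop) (i : N) (F : Finset W) {α β : W} (h : α ≤ β) :
    tr X i F β ∩ Iio α = tr X i F α := by
  ext ξ
  simp only [tr, mem_inter_iff, mem_ofPred_eq, mem_Iio]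
  exact ⟨fun h1 => ⟨h1.2, h1.1.2⟩, fun h1 => ⟨⟨h1.1.trans_le h, h1.2⟩, h1.1⟩⟩

/-- the nodes of the tree -/
def Nodes (X : N → W → Prop) : Set (W × Set W) := {p | ∃ i F, p.2 = tr X i F p.1}

theorem countable_level (hL : Like W) {X : N → W → Prop} (hX : Fam X) (α : W) :
    {p | p ∈ Nodes X ∧ p.1 = α}.Countable := by
  classical
  obtain ⟨e, he⟩ := hX.2 α
  have : Countable (Iio α) := (hL.cnt α).to_subtype
  have h1 : {p | p ∈ Nodes X ∧ p.1 = α} ⊆ range fun q : ℕ × Finset (Iio α) =>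
      ((α, tr X (e q.1) (q.2.map (Function.Embedding.subtype _)) α) : W × Set W) := by
    rintro ⟨β, s⟩ ⟨⟨i, F, h2⟩, h3⟩
    simp only at h2 h3
    subst h3
    obtain ⟨n, j, h4, h5⟩ := he i
    have hfin : {x : Iio β | x.1 ∈ F}.Finite :=
      F.finite_toSet.preimage Subtype.val_injective.injOn
    refine ⟨(n, hfin.toFinset), ?_⟩
    simp only [Prod.mk.injEq, true_and]
    rw [h2]
    ext ξ
    simp only [tr, mem_ofPred_eq]
    refine and_congr_right fun hξ => not_congr ?_
    rw [h4, h5 ξ hξ]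
    refine iff_congr Iff.rfl ?_
    constructor
    · intro h6
      obtain ⟨a, ha, hb⟩ := Finset.mem_map.1 h6
      have h7 := (Set.Finite.mem_toFinset hfin).1 ha
      rw [← hb]
      exact h7
    · intro hF
      exact Finset.mem_map.2 ⟨⟨ξ, hξ⟩, (Set.Finite.mem_toFinset hfin).2 hF, rfl⟩
  exact (countable_range _).mono h1

theorem mk_nodes (hL : Like W) (hW : #W = ℵ₁) {X : N → W → Prop} (hX : Fam X) (i0 : N) :
    #(Nodes X) = #W := by
  apply le_antisymm
  · have h1 : Nodes X ⊆ ⋃ α, {p | p ∈ Nodes X ∧ p.1 = α} := fun p hp =>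
      mem_iUnion.2 ⟨p.1, hp, rfl⟩
    refine (mk_le_mk_of_subset h1).trans ((mk_iUnion_le_sum_mk).trans ?_)
    refine (sum_le_sum _ (fun _ => ℵ₀) fun α => (countable_level hL hX α).le_aleph0).trans ?_
    rw [sum_const', hW]
    exact mul_le_of_le (aleph0_le_aleph 1) le_rfl (aleph0_le_aleph 1)
  · refine mk_le_of_injective (f := fun α : W => (⟨(α, tr X i0 ∅ α), i0, ∅, rfl⟩ : Nodes X)) ?_
    intro α β h
    exact congrArg (fun p : Nodes X => p.1.1) h

theorem exists_tree [WellFoundedLT W] (hL : Like W) (hW : #W = ℵ₁) {X : N → W → Prop} (hX : Fam X)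
    (hN : ℵ_ 2 ≤ #N) : ∃ R : W → W → Prop, IsKurepa R ∧ IsRegular R := by
  classical
  obtain ⟨i0⟩ : Nonempty N := by
    obtain ⟨w⟩ := hL.nonempty
    exact ⟨(hX.2 w).choose 0⟩
  obtain ⟨φ⟩ := Cardinal.eq.1 (mk_nodes hL hW hX i0).symm
  let lv : W → W := fun a => (φ a).1.1
  let st : W → Set W := fun a => (φ a).1.2
  have hinj : ∀ a b, lv a = lv b → st a = st b → a = b := fun a b h1 h2 =>
    φ.injective (Subtype.ext (Prod.ext h1 h2))
  have hst : ∀ a, ∃ i F, st a = tr X i F (lv a) := fun a => (φ a).2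
  let nd : N → Finset W → W → W := fun i F α => φ.symm ⟨(α, tr X i F α), i, F, rfl⟩
  have lv_nd : ∀ i F α, lv (nd i F α) = α := by
    intro i F α
    show (φ (φ.symm _)).1.1 = α
    rw [φ.apply_symm_apply]
  have st_nd : ∀ i F α, st (nd i F α) = tr X i F α := by
    intro i F α
    show (φ (φ.symm _)).1.2 = _
    rw [φ.apply_symm_apply]
  let R : W → W → Prop := fun a b => lv a < lv b ∧ st a = st b ∩ Iio (lv a)
  have hTO : TO R := by
    refine ⟨fun a h => lt_irrefl _ h.1, fun a b c h1 h2 => ⟨h1.1.trans h2.1, ?_⟩,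
      fun a a' b h1 h2 => ?_, ?_⟩
    · rw [h1.2, h2.2, inter_assoc, Iio_inter_Iio, min_eq_right h1.1.le]
    · rcases lt_trichotomy (lv a) (lv a') with h | h | h
      · refine Or.inr (Or.inl ⟨h, ?_⟩)
        rw [h2.2, inter_assoc, Iio_inter_Iio, min_eq_right h.le]
        exact h1.2
      · refine Or.inl (hinj a a' h ?_)
        rw [h1.2, h2.2, h]
      · refine Or.inr (Or.inr ⟨h, ?_⟩)
        rw [h1.2, inter_assoc, Iio_inter_Iio, min_eq_right h.le]
        exact h2.2
    · exact Subrelation.wf (r := InvImage (· < ·) lv) (fun {a b} h => h.1)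
        (InvImage.wf lv wellFounded_lt)
  have hht : IsHt R lv := by
    intro b α
    constructor
    · intro h
      obtain ⟨i, F, h1⟩ := hst b
      refine ⟨nd i F α, ⟨?_, ?_⟩, lv_nd i F α⟩
      · rw [lv_nd]
        exact h
      · rw [lv_nd, st_nd, h1, tr_inter X i F h.le]
    · rintro ⟨a, h1, rfl⟩
      exact h1.1
  have hH : ∀ b α, HasHeight R b α ↔ lv b = α := hasHeight_iff hTO hht
  refine ⟨R, ⟨⟨isTreeOrder_iff.2 hTO, fun b => ⟨lv b, (hH b _).2 rfl⟩, fun α => ⟨?_, ?_⟩⟩, ?_⟩,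
    ?_, ?_, ?_⟩
  · exact ⟨nd i0 ∅ α, (hH _ _).2 (lv_nd _ _ _)⟩
  · have h1 : {b | HasHeight R b α} = (fun b => (φ b).1) ⁻¹' {p | p ∈ Nodes X ∧ p.1 = α} := by
      ext b
      simp only [mem_ofPred_eq, mem_preimage]
      rw [hH]
      exact ⟨fun h => ⟨(φ b).2, h⟩, fun h => h.2⟩
    rw [h1]
    exact (countable_level hL hX α).preimage (Subtype.val_injective.comp φ.injective)
  · -- branches
    have hbr : ∀ i : N, IsMaxChain R {a | st a = tr X i ∅ (lv a)} ∧
        ¬ {a | st a = tr X i ∅ (lv a)}.Countable := by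
      intro i
      have hch : IsChain R {a | st a = tr X i ∅ (lv a)} := by
        intro a ha b hb hne
        have ha' : st a = tr X i ∅ (lv a) := ha
        have hb' : st b = tr X i ∅ (lv b) := hb
        rcases lt_trichotomy (lv a) (lv b) with h | h | h
        · exact Or.inl ⟨h, by rw [ha', hb', tr_inter X i ∅ h.le]⟩
        · exact absurd (hinj a b h (by rw [ha', hb', h])) hne
        · exact Or.inr ⟨h, by rw [ha', hb', tr_inter X i ∅ h.le]⟩
      refine ⟨⟨hch, fun t ht hsub => Subset.antisymm hsub fun c hc => ?_⟩, fun hcnt => ?_⟩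
      · have h1 : nd i ∅ (lv c) ∈ {a | st a = tr X i ∅ (lv a)} := by
          rw [mem_ofPred_eq, st_nd, lv_nd]
        by_cases hne : c = nd i ∅ (lv c)
        · rw [hne]
          exact h1
        · have hlv := lv_nd i ∅ (lv c)
          rcases ht hc (hsub h1) hne with h | h
          · have := h.1
            rw [hlv] at this
            exact absurd this (lt_irrefl _)
          · have := h.1
            rw [hlv] at this
            exact absurd this (lt_irrefl _)
      · refine hL.unc ?_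
        have h1 : (lv '' {a | st a = tr X i ∅ (lv a)}) = Set.univ := by
          refine eq_univ_of_forall fun α => ⟨nd i ∅ α, ?_, lv_nd _ _ _⟩
          rw [mem_ofPred_eq, st_nd, lv_nd]
        have h2 := hcnt.image lv
        rw [h1] at h2
        exact countable_univ_iff.1 h2
    refine hN.trans (mk_le_of_injective (f := fun i : N =>
      (⟨{a | st a = tr X i ∅ (lv a)}, hbr i⟩ : uncBranches R)) ?_)
    intro i j hij
    by_contra hne
    obtain ⟨ξ, hξ⟩ := hX.1 i j hne
    obtain ⟨β, hβ⟩ := hL.exists_gt ξ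
    have h1 : {a | st a = tr X i ∅ (lv a)} = {a | st a = tr X j ∅ (lv a)} :=
      congrArg Subtype.val hij
    have h2 : nd i ∅ β ∈ {a | st a = tr X j ∅ (lv a)} := by
      rw [← h1, mem_ofPred_eq, st_nd, lv_nd]
    rw [mem_ofPred_eq, st_nd, lv_nd] at h2
    have h3 : ξ ∈ tr X i ∅ β ↔ ξ ∈ tr X j ∅ β := by rw [h2]
    simp only [tr, mem_ofPred_eq, hβ, true_and, Finset.notMem_empty, iff_false, not_not] at h3
    exact hξ h3
  · -- the root
    obtain ⟨w⟩ := hL.nonempty
    obtain ⟨z, hz⟩ : ∃ z : W, ∀ w, z ≤ w := by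
      obtain ⟨z, -, hz⟩ := (wellFounded_lt (α := W)).has_min Set.univ ⟨w, mem_univ _⟩
      exact ⟨z, fun w => not_lt.1 (hz w (mem_univ w))⟩
    refine ⟨nd i0 ∅ z, fun a ha => ?_⟩
    have hempty : ∀ (s : Set W) (b : W), b = z → s ∩ Iio b = ∅ := by
      rintro s b rfl
      ext ξ
      simp only [mem_inter_iff, mem_Iio, mem_empty_iff_false, iff_false, not_and, not_lt]
      exact fun _ => hz ξ
    have hlt : z < lv a := by
      refine lt_of_le_of_ne (hz _) fun h' => ha ?_
      have h := h'.symm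
      refine hinj _ _ (by rw [lv_nd]; exact h) ?_
      obtain ⟨i, F, h1⟩ := hst a
      rw [st_nd, h1, ← tr_inter X i0 ∅ le_rfl, ← tr_inter X i F le_rfl, hempty _ z rfl,
        hempty _ _ h]
    refine ⟨by rw [lv_nd]; exact hlt, ?_⟩
    rw [lv_nd, st_nd, ← tr_inter X i0 ∅ le_rfl, hempty _ z rfl, hempty _ z rfl]
  · -- immediate successors
    intro a
    obtain ⟨β, hβ1, hβ2⟩ : ∃ β, lv a < β ∧ ∀ γ, lv a < γ → β ≤ γ := by
      obtain ⟨β, h1, h2⟩ := (wellFounded_lt (α := W)).has_min {γ | lv a < γ}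
        (hL.exists_gt (lv a))
      exact ⟨β, h1, fun γ hγ => not_lt.1 (h2 γ hγ)⟩
    obtain ⟨i, F, hF⟩ := hst a
    have hno : ∀ b, lv b = β → ¬ ∃ c, R a c ∧ R c b := by
      rintro b hb ⟨c, h1, h2⟩
      have h3 := h2.1
      rw [hb] at h3
      exact absurd h3 (not_lt.2 (hβ2 _ h1.1))
    let F' : Finset W := if lv a ∈ F then F.erase (lv a) else insert (lv a) F
    have hF' : ∀ ξ, ξ ≠ lv a → (ξ ∈ F' ↔ ξ ∈ F) := by
      intro ξ hξ
      simp only [F']
      split_ifs
      · simp [hξ]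
      · simp [hξ]
    have hF'' : lv a ∈ F' ↔ ¬ lv a ∈ F := by
      simp only [F']
      split_ifs with h
      · simp [h]
      · simp [h]
    have htr : tr X i F' (lv a) = tr X i F (lv a) := by
      ext ξ
      simp only [tr, mem_ofPred_eq]
      refine and_congr_right fun hξ => ?_
      rw [hF' ξ hξ.ne]
    refine ⟨nd i F β, nd i F' β, fun h => ?_, ⟨⟨?_, ?_⟩, hno _ (lv_nd _ _ _)⟩,
      ⟨⟨?_, ?_⟩, hno _ (lv_nd _ _ _)⟩⟩
    · have h1 := congrArg st h
      rw [st_nd, st_nd] at h1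
      have h2 : lv a ∈ tr X i F β ↔ lv a ∈ tr X i F' β := by rw [h1]
      simp only [tr, mem_ofPred_eq, hβ1, true_and, hF''] at h2
      tauto
    · rw [lv_nd]
      exact hβ1
    · rw [st_nd, tr_inter X i F hβ1.le]
      exact hF
    · rw [lv_nd]
      exact hβ1
    · rw [st_nd, tr_inter X i F' hβ1.le, htr]
      exact hF
  · -- pruned
    intro a α β ha hαβ
    rw [hH] at ha
    obtain ⟨i, F, hF⟩ := hst a
    refine ⟨nd i F β, ⟨?_, ?_⟩, (hH _ _).2 (lv_nd _ _ _)⟩
    · rw [lv_nd, ha]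
      exact hαβ
    · rw [st_nd, ha, tr_inter X i F hαβ.le, ← ha]
      exact hF

end Pool.Agent.Zk92.KM
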