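import Mathlib
import Pool.Agent.W684.FM.Ambient
import Pool.Agent.R591.SPL.Defs
import Pool.Agent.Zk92.KM.Tree

/-!
# Martin's axiom and a Kurepa family: the sentence in the forcing language
-/

set_option autoImplicit false

open Set Cardinal

namespace Pool.Agent.Zk92.KM

open Pool.Agent.Helper669.Forcing Pool.Agent.W684.FM
open Pool.Agent.R591.SPL (fiff)

/-- About actual objects (`W` will be `ω₁`): there is no map from `ℕ` onto `W`, no map from `W` onto
`N`, and there is a family of `N` many distinct subsets of `W` which has only countably many traces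
on every proper initial segment of `W`. -/
structure FamilyFor (W : Type) [LinearOrder W] (N : Type) : Prop where
  unc : ∀ f : ℕ → W, ¬ Function.Surjective f
  many : ∀ g : W → N, ¬ Function.Surjective g
  kurepa : ∃ X : N → W → Prop, (∀ i j, i ≠ j → ∃ ξ, ¬ (X i ξ ↔ X j ξ)) ∧
    ∀ δ, ∃ e : ℕ → N, ∀ i, ∃ n, ∃ j, e n = j ∧ ∀ ξ, ξ < δ → (X i ξ ↔ X j ξ)

/-- The translation of `FamilyFor` into the forcing language of `P`. -/
def FamilyHolds (P : Type) [Preorder P] (W : Type) [LinearOrder W] (N : Type) : Set P :=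
  fand (fall fun f : ℕ → W → Set P => fnot (fand (IsFun f) (IsOnto f)))
  (fand (fall fun g : W → N → Set P => fnot (fand (IsFun g) (IsOnto g)))
  (fex fun X : N → W → Set P => fand
      (fall fun i => fall fun j => fimp (fground (i ≠ j)) (fex fun ξ =>
        fnot (fiff (meets (X i ξ)) (meets (X j ξ)))))
      (fall fun δ => fex fun e : ℕ → N → Set P => fand (IsFun e) (fall fun i => fex fun n =>
        fex fun j => fand (meets (e n j)) (fall fun ξ => fimp (fground (ξ < δ))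
          (fiff (meets (X i ξ)) (meets (X j ξ))))))))

variable {P : Type} [Preorder P]

theorem mem_meets_const {h : Prop} {p : P} : p ∈ meets {_p : P | h} ↔ h := by
  constructor
  · intro h1
    obtain ⟨r, -, s, hs, -⟩ := h1 p le_rfl
    exact hs
  · intro h1
    exact meets_of_mem (N := {_p : P | h}) h1

theorem mem_fiff_const {h h' : Prop} {p : P} :
    p ∈ fiff (meets {_p : P | h}) (meets {_p : P | h'}) ↔ (h ↔ h') := by
  constructor
  · rintro ⟨h1, h2⟩
    constructor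
    · intro h3
      obtain ⟨r, _, hr⟩ := mem_fimp.1 h1 p le_rfl (mem_meets_const.2 h3)
      exact mem_meets_const.1 hr
    · intro h3
      obtain ⟨r, _, hr⟩ := mem_fimp.1 h2 p le_rfl (mem_meets_const.2 h3)
      exact mem_meets_const.1 hr
  · intro h1
    exact ⟨mem_fimp.2 fun q _ hq => ⟨q, le_rfl, mem_meets_const.2 (h1.1 (mem_meets_const.1 hq))⟩,
      mem_fimp.2 fun q _ hq => ⟨q, le_rfl, mem_meets_const.2 (h1.2 (mem_meets_const.1 hq))⟩⟩

theorem isFun_const {X Y : Type} (f : X → Y) (p : P) :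
    p ∈ IsFun (fun x y => {_p : P | f x = y}) := by
  refine ⟨fun x => mem_fex.2 fun q _ => ⟨q, le_rfl, f x, mem_meets_const.2 rfl⟩, fun x y y' => ?_⟩
  refine mem_fimp.2 fun q _ hq => ⟨q, le_rfl, ?_⟩
  exact (mem_meets_const.1 hq.1).symm.trans (mem_meets_const.1 hq.2)

theorem many_forced {p : P} (hp : p ∈ CardinalsPreserved.{0, 0} P) {W N : Type} (h : #W < #N)
    (hN : ℵ₀ < #N) (g : W → N → Set P) : p ∈ fnot (fand (IsFun g) (IsOnto g)) := by
  intro q hq hg
  obtain ⟨e1⟩ : Nonempty ((#W).out ≃ W) := Cardinal.eq.1 (mk_out _)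
  obtain ⟨e2⟩ : Nonempty ((#N).out ≃ N) := Cardinal.eq.1 (mk_out _)
  refine hp (#W) (#N) h hN q hq (mem_fex.2 fun r hr => ⟨r, le_rfl, fun x y => g (e1 x) (e2 y), ?_⟩)
  have h1 := down_IsFun g _ hg.1 _ hr
  have h2 := down_IsOnto g _ hg.2 _ hr
  refine ⟨⟨fun x => mem_fex.2 fun s hs => ?_, fun x y y' => mem_fimp.2 fun s hs hs' => ?_⟩,
    fun y => mem_fex.2 fun s hs => ?_⟩
  · obtain ⟨t, ht, y, hy⟩ := mem_fex.1 (h1.1 (e1 x)) s hs
    exact ⟨t, ht, e2.symm y, by simpa using hy⟩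
  · have h3 := IsFun.unique (down_IsFun g _ h1 _ hs) hs'.1 hs'.2
    exact ⟨s, le_rfl, e2.injective h3⟩
  · obtain ⟨t, ht, x, hx⟩ := mem_fex.1 (h2 (e2 y)) s hs
    exact ⟨t, ht, e1.symm x, by simpa using hx⟩

theorem card_N {N : Type} (h : FamilyFor Om1 N) : ℵ_ 2 ≤ #N := by
  obtain ⟨X, -, hX⟩ := h.kurepa
  have h0 : Nonempty Om1 := by
    by_contra hcon
    rw [not_nonempty_iff] at hcon
    have : #Om1 = 0 := Cardinal.mk_eq_zero _
    rw [Cardinal.mk_ord_toType] at this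
    exact absurd this (Cardinal.aleph_pos 1).ne'
  obtain ⟨w⟩ := h0
  have hN : Nonempty N := ⟨(hX w).choose 0⟩
  have e : ℵ_ 2 = Order.succ (ℵ₁ : Cardinal.{0}) := by
    rw [succ_aleph, one_add_one_eq_two]
  rw [e]
  apply Order.succ_le_of_lt
  by_contra hcon
  rw [not_lt, ← Cardinal.mk_ord_toType ℵ₁] at hcon
  obtain ⟨g⟩ := (Cardinal.le_def _ _).1 hcon
  exact h.many (Function.invFun g) (Function.invFun_surjective g.injective)

theorem familyHolds {p : P} (hp : p ∈ CardinalsPreserved.{0, 0} P) (hp' : p ∈ OmegaOnePreserved P)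
    {N : Type} (h : FamilyFor Om1 N) : p ∈ FamilyHolds P Om1 N := by
  have hN := card_N h
  have h1 : (ℵ₁ : Cardinal.{0}) < ℵ_ 2 := by
    rw [aleph_lt_aleph]
    exact one_lt_two
  refine ⟨fun f q hq hf => ?_, fun g => many_forced hp ?_ ?_ g, ?_⟩
  · exact hp' q hq (mem_fex.2 fun r hr => ⟨r, le_rfl, f, down_IsFun f _ hf.1 _ hr,
      down_IsOnto f _ hf.2 _ hr⟩)
  · rw [Cardinal.mk_ord_toType]
    exact h1.trans_le hN
  · exact aleph0_lt_aleph_one.trans (h1.trans_le hN)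
  · obtain ⟨X, hX1, hX2⟩ := h.kurepa
    refine mem_fex.2 fun q _ => ⟨q, le_rfl, fun i ξ => {_p | X i ξ}, fun i j => ?_, fun δ => ?_⟩
    · refine mem_fimp.2 fun r _ hne => ⟨r, le_rfl, mem_fex.2 fun s _ => ?_⟩
      obtain ⟨ξ, hξ⟩ := hX1 i j hne
      exact ⟨s, le_rfl, ξ, fun t _ ht => hξ (mem_fiff_const.1 ht)⟩
    · obtain ⟨e, he⟩ := hX2 δ
      refine mem_fex.2 fun r _ => ⟨r, le_rfl, fun n j => {_p | e n = j}, isFun_const e r,
        fun i => mem_fex.2 fun s _ => ⟨s, le_rfl, ?_⟩⟩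
      obtain ⟨n, j, h3, h4⟩ := he i
      refine ⟨n, mem_fex.2 fun t _ => ⟨t, le_rfl, j, mem_meets_const.2 h3, fun ξ => ?_⟩⟩
      exact mem_fimp.2 fun u _ hu => ⟨u, le_rfl, mem_fiff_const.2 (h4 ξ hu)⟩

/-- If there is a Kurepa family, then Martin's axiom can be forced with preservation of the Kurepa
family. -/
theorem exists_forcing {N : Type} (h : FamilyFor Om1 N) :
    ∃ (P : Type) (_ : Preorder P), Nonempty P ∧
      ∀ p : P, p ∈ fand (MartinHolds P Om1) (FamilyHolds P Om1 N) := by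
  obtain ⟨P, hP, hne, h1⟩ := Pool.Agent.W684.FM.exists_forcing Om1
  exact ⟨P, hP, hne, fun p => ⟨(h1 p).2.2, familyHolds (h1 p).1 (h1 p).2.1 h⟩⟩

end Pool.Agent.Zk92.KM
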